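import Mathlib

set_option autoImplicit false

namespace Pool.Agent.P.MP_9682d1_al.A

variable {G : Type*} [Group G]

/-- conjugate `a^x = x⁻¹ a x`. -/
def cj (a x : G) : G := x⁻¹ * a * x

/-- commutator `[a,x] = a⁻¹ a^x`. -/
def cm (a x : G) : G := a⁻¹ * (x⁻¹ * a * x)

/-- right 4-Engel element. -/
def RE4 (a : G) : Prop := ∀ x : G, cm (cm (cm (cm a x) x) x) x = 1

theorem re4_iff (a : G) :
    RE4 a ↔ ∀ x : G, (fun c : G => c⁻¹ * (x⁻¹ * c * x))^[4] a = 1 := Iff.rfl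

theorem cm_eq_one {a x : G} : cm a x = 1 ↔ Commute a x := by
  unfold cm
  constructor
  · intro h
    have : a * x = x * a * (a⁻¹ * (x⁻¹ * a * x)) := by group
    rw [h, mul_one] at this
    exact this
  · intro h
    have : a⁻¹ * (x⁻¹ * a * x) = a⁻¹ * x⁻¹ * (a * x) := by group
    rw [this, h.eq]; group

theorem cj_eq_self {a x : G} : cj a x = a ↔ Commute a x := by
  unfold cj
  constructor
  · intro h
    have : a * x = x * (x⁻¹ * a * x) := by group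
    rw [h] at this
    exact this
  · intro h
    have : x⁻¹ * a * x = x⁻¹ * (a * x) := by group
    rw [this, h.eq]; group

theorem map_cm {H : Type*} [Group H] (f : G →* H) (a x : G) : f (cm a x) = cm (f a) (f x) := by
  simp [cm]

theorem map_cj {H : Type*} [Group H] (f : G →* H) (a x : G) : f (cj a x) = cj (f a) (f x) := by
  simp [cj]

theorem cj_cm (a x y : G) : cj (cm a x) y = cm (cj a y) (cj x y) := by
  unfold cj cm; group

theorem cj_cj (a x y : G) : cj (cj a x) y = cj a (x * y) := by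
  unfold cj; group

theorem cj_one (a : G) : cj a 1 = a := by
  unfold cj; group

theorem cj_mul (a b x : G) : cj (a * b) x = cj a x * cj b x := by
  unfold cj; group

theorem cj_inv (a x : G) : cj a⁻¹ x = (cj a x)⁻¹ := by
  unfold cj; group

theorem cj_zpow (a x : G) (n : ℤ) : cj (a ^ n) x = cj a x ^ n := by
  unfold cj
  have := conj_zpow (i := n) (a := x⁻¹) (b := a)
  simpa using this.symm

theorem cj_pow (a x : G) (n : ℕ) : cj (a ^ n) x = cj a x ^ n := by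
  simpa using cj_zpow a x n

theorem commute_cj {a b : G} (h : Commute a b) (x : G) : Commute (cj a x) (cj b x) := by
  unfold Commute SemiconjBy
  rw [← cj_mul, ← cj_mul, h.eq]

theorem commute_of_cj {a b : G} (x : G) (h : Commute (cj a x) (cj b x)) : Commute a b := by
  have := commute_cj h x⁻¹
  simpa [cj_cj, cj_one] using this

theorem RE4.map {H : Type*} [Group H] {f : G →* H} (hf : Function.Surjective f) {a : G}
    (ha : RE4 a) : RE4 (f a) := by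
  intro y
  obtain ⟨x, rfl⟩ := hf y
  simp only [← map_cm]
  rw [ha x, map_one]

theorem RE4.cj {a : G} (ha : RE4 a) (y : G) : RE4 (cj a y) := by
  intro x
  have h := congrArg (fun z => A.cj z y) (ha (A.cj x y⁻¹))
  simp only [cj_cm, cj_cj, inv_mul_cancel, cj_one] at h
  rw [h]; simp [A.cj]

theorem RE4.sub {S : Subgroup G} {a : S} (ha : RE4 (a : G)) : RE4 a := by
  intro x
  apply Subtype.ext
  have := ha (x : G)
  simpa [cm] using this

/-- the identity (P). -/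
theorem idP {a : G} (ha : RE4 a) (g am a1 a2 a3 : G) (hm : am = cj a g⁻¹) (h1 : a1 = cj a g)
    (h2 : a2 = cj a1 g) (h3 : a3 = cj a2 g) :
    Commute (am⁻¹ * a * a1⁻¹ * a) (a⁻¹ * a1 * a2⁻¹ * a1) ∧
      (am⁻¹ * a * a1⁻¹ * a) * (a1⁻¹ * a2 * a3⁻¹ * a2) =
        (a⁻¹ * a1 * a2⁻¹ * a1) * (a⁻¹ * a1 * a2⁻¹ * a1) := by
  have hu := cj_eq_self.2 (cm_eq_one.1 (ha g)).inv_right
  have hv := cj_eq_self.2 (cm_eq_one.1 (ha g⁻¹)).inv_right
  set u := cm (cm (cm a g) g) g with hud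
  set v := cm (cm (cm a g⁻¹) g⁻¹) g⁻¹ with hvd
  rw [inv_inv] at hv
  set xm := am⁻¹ * a with hxm
  set x0 := a⁻¹ * a1 with hx0
  set x1 := a1⁻¹ * a2 with hx1
  set x2 := a2⁻¹ * a3 with hx2
  have e1 : u = x1⁻¹ * x0 * x1⁻¹ * x2 := by
    rw [hud, hx0, hx1, hx2, h3, h2, h1]; unfold cm cj; group
  have e2 : u = x0⁻¹ * xm * x0⁻¹ * x1 := by
    rw [← hu, hud, hx0, hx1, hxm, h2, h1, hm]; unfold cm cj; group
  have e3 : v = x0 * x1⁻¹ * x0 * xm⁻¹ := by
    rw [← hv, ← hv, hvd, hx0, hx1, hxm, h2, h1, hm]; unfold cm cj; group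
  have e4 : v = x1 * x2⁻¹ * x1 * x0⁻¹ := by
    rw [← hv, ← hv, ← hv, hvd, hx0, hx1, hx2, h3, h2, h1]; unfold cm cj; group
  have f0 : v = x0 * u⁻¹ * x0⁻¹ := by rw [e2, e3]; group
  have f1 : v = x1 * u⁻¹ * x1⁻¹ := by rw [e1, e4]; group
  have hc : Commute v (x0 * x1⁻¹) := by
    have : v * (x0 * x1⁻¹) = x0 * u⁻¹ * x1⁻¹ := by rw [f0]; group
    have h' : (x0 * x1⁻¹) * v = x0 * u⁻¹ * x1⁻¹ := by rw [f1]; group
    exact this.trans h'.symm
  have p0 : a⁻¹ * a1 * a2⁻¹ * a1 = x0 * x1⁻¹ := by rw [hx0, hx1]; group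
  have pm : am⁻¹ * a * a1⁻¹ * a = v⁻¹ * (x0 * x1⁻¹) := by
    rw [e3, hx0, hxm]; group
  have p1 : a1⁻¹ * a2 * a3⁻¹ * a2 = v * (x0 * x1⁻¹) := by
    rw [e4, hx1, hx2]; group
  have p0' : x0 * a2⁻¹ * a1 = x0 * x1⁻¹ := by rw [hx1]; group
  have pm' : xm * a1⁻¹ * a = v⁻¹ * (x0 * x1⁻¹) := pm
  have p1' : x1 * a3⁻¹ * a2 = v * (x0 * x1⁻¹) := p1
  rw [p0', pm', p1']
  refine ⟨(hc.inv_left).mul_left (Commute.refl _), ?_⟩
  calc v⁻¹ * (x0 * x1⁻¹) * (v * (x0 * x1⁻¹)) = v⁻¹ * ((x0 * x1⁻¹) * v) * (x0 * x1⁻¹) := by group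
    _ = _ := by rw [← hc.eq]; group

end Pool.Agent.P.MP_9682d1_al.A
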