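import Mathlib
import Pool.Agent.P.MP_9682d1_al.A.Basic

set_option autoImplicit false

namespace Pool.Agent.P.MP_9682d1_al.A

open Subgroup
open scoped commutatorElement

universe u

variable {G : Type*} [Group G]

theorem iso_comm (q : ℕ) (M : Subgroup G) (Y : Set G)
    (hc : ∀ x ∈ closure Y, ∀ y ∈ closure Y, Commute x y)
    (hY : ∀ y ∈ Y, ∃ s : ℕ, y ^ (q ^ s) ∈ M) : ∀ y ∈ closure Y, ∃ s : ℕ, y ^ (q ^ s) ∈ M := by
  intro y hy
  induction hy using Subgroup.closure_induction with
  | mem x hx => exact hY x hx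
  | one => exact ⟨0, by simp⟩
  | mul x y hx hy ihx ihy =>
    obtain ⟨s, hs⟩ := ihx
    obtain ⟨t, ht⟩ := ihy
    refine ⟨s + t, ?_⟩
    rw [(hc x hx y hy).mul_pow]
    refine M.mul_mem ?_ ?_
    · rw [pow_add, pow_mul]; exact M.pow_mem hs _
    · rw [add_comm, pow_add, pow_mul]; exact M.pow_mem ht _
  | inv x _ ih =>
    obtain ⟨s, hs⟩ := ih
    exact ⟨s, by rw [inv_pow]; exact M.inv_mem hs⟩

theorem cm_pow_left {x y : G} (h : Commute (cm x y) x) (n : ℕ) : cm (x ^ n) y = cm x y ^ n := by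
  induction n with
  | zero => simp [cm]
  | succ n ih =>
    have e : cm (x ^ (n + 1)) y = cj (cm (x ^ n) y) x * cm x y := by
      rw [pow_succ]; unfold cm cj; group
    rw [e, ih, cj_eq_self.2 (h.pow_left n), pow_succ]

theorem cm_pow_right {x y : G} (h : Commute (cm x y) y) (n : ℕ) : cm x (y ^ n) = cm x y ^ n := by
  induction n with
  | zero => simp [cm]
  | succ n ih =>
    have e : cm x (y ^ (n + 1)) = cm x y * cj (cm x (y ^ n)) y := by
      rw [pow_succ]; unfold cm cj; group
    rw [e, ih, cj_eq_self.2 (h.pow_left n), pow_succ']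

theorem cm_central {m m' z z' : G} (hz : z ∈ center G) (hz' : z' ∈ center G) :
    cm (m * z) (m' * z') = cm m m' := by
  have c1 := mem_center_iff.1 hz
  have c2 := mem_center_iff.1 hz'
  unfold cm
  calc (m * z)⁻¹ * ((m' * z')⁻¹ * (m * z) * (m' * z'))
      = z⁻¹ * (m⁻¹ * z'⁻¹ * m'⁻¹ * m * z) * m' * z' := by group
    _ = m⁻¹ * z'⁻¹ * (m'⁻¹ * m * m' * z') := by rw [c1]; group
    _ = _ := by rw [c2]; group

/-- isolator lemma in nilpotent groups. -/
theorem isol_aux (q : ℕ) (c : ℕ) : ∀ (G : Type u) [Group G],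
    (⊤ : Subgroup G).lowerCentralSeries (c + 1) = ⊥ → ∀ (X : Set G) (M : Subgroup G),
    closure X = ⊤ → (∀ x ∈ X, ∃ s : ℕ, x ^ (q ^ s) ∈ M ⊔ commutator G) →
    ∀ x : G, ∃ s : ℕ, x ^ (q ^ s) ∈ M := by
  induction c with
  | zero =>
    intro G _ h X M hX hM x
    have h' : commutator G = ⊥ := h
    rw [h', sup_bot_eq] at hM
    refine iso_comm q M X (fun a _ b _ => ?_) hM x (by rw [hX]; trivial)
    have : ⁅a, b⁆ ∈ commutator G := Subgroup.commutator_mem_commutator trivial trivial
    rw [h', Subgroup.mem_bot] at this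
    exact commutatorElement_eq_one_iff_commute.1 this
  | succ c ih =>
    intro G _ h X M hX hM
    set Z := (⊤ : Subgroup G).lowerCentralSeries (c + 1) with hZ
    have hZc : Z ≤ center G := by
      intro z hz
      rw [mem_center_iff]
      intro y
      have : ⁅z, y⁆ ∈ (⊤ : Subgroup G).lowerCentralSeries (c + 1 + 1) :=
        Subgroup.commutator_mem_commutator hz trivial
      rw [h, Subgroup.mem_bot] at this
      exact (commutatorElement_eq_one_iff_commute.1 this).symm.eq
    have hs := QuotientGroup.mk'_surjective Z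
    have h1 : ∀ x : G, ∃ s : ℕ, ∃ m ∈ M, ∃ z ∈ Z, x ^ (q ^ s) = m * z := by
      intro x
      obtain ⟨s, hs'⟩ := ih (G ⧸ Z) (by
          rw [← Subgroup.map_top_of_surjective _ hs, ← Subgroup.map_lowerCentralSeries,
            Subgroup.map_eq_bot_iff, QuotientGroup.ker_mk'])
        (QuotientGroup.mk' Z '' X) (M.map (QuotientGroup.mk' Z))
        (by rw [← MonoidHom.map_closure, hX, Subgroup.map_top_of_surjective _ hs])
        (by
          rintro _ ⟨y, hy, rfl⟩
          obtain ⟨s, hs'⟩ := hM y hy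
          refine ⟨s, ?_⟩
          have := Subgroup.mem_map_of_mem (QuotientGroup.mk' Z) hs'
          rwa [Subgroup.map_sup, commutator_def, Subgroup.map_commutator,
            Subgroup.map_top_of_surjective _ hs, map_pow] at this)
        (QuotientGroup.mk' Z x)
      obtain ⟨m, hm, e⟩ := hs'
      rw [← map_pow] at e
      exact ⟨s, m, hm, m⁻¹ * x ^ (q ^ s), QuotientGroup.eq.1 e, by group⟩
    have h2 : ∀ z ∈ Z, ∃ s : ℕ, z ^ (q ^ s) ∈ M := by
      apply iso_comm q M
      · intro a ha b _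
        exact (mem_center_iff.1 (hZc ha) b).symm
      · rintro _ ⟨a, ha, b, -, rfl⟩
        obtain ⟨s, m, hm, z, hz, e⟩ := h1 a⁻¹
        obtain ⟨t, m', hm', z', hz', e'⟩ := h1 b⁻¹
        have hab : ∀ y : G, cm a⁻¹ y ∈ center G := by
          intro y
          apply hZc
          have : cm a⁻¹ y = ⁅a, y⁻¹⁆ := by simp [cm, commutatorElement_def, mul_assoc]
          rw [this]
          exact Subgroup.commutator_mem_commutator ha trivial
        refine ⟨t + s, ?_⟩
        have e0 : ⁅a, b⁆ = cm a⁻¹ b⁻¹ := by simp [cm, commutatorElement_def, mul_assoc]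
        rw [e0, pow_add, pow_mul,
          ← cm_pow_right (mem_center_iff.1 (hab _) _).symm,
          ← cm_pow_left (mem_center_iff.1 (hab _) _).symm, e, e', cm_central (hZc hz) (hZc hz')]
        exact M.mul_mem (M.inv_mem hm) (M.mul_mem (M.mul_mem (M.inv_mem hm') hm) hm')
    intro x
    obtain ⟨s, m, hm, z, hz, e⟩ := h1 x
    obtain ⟨t, ht⟩ := h2 z hz
    refine ⟨s + t, ?_⟩
    have hc : Commute m z := mem_center_iff.1 (hZc hz) m
    rw [pow_add, pow_mul, e, hc.mul_pow]
    exact M.mul_mem (M.pow_mem hm _) ht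

theorem isol (q : ℕ) {G : Type u} [Group G] [h : Group.IsNilpotent G] (X : Set G) (M : Subgroup G)
    (hX : closure X = ⊤) (hM : ∀ x ∈ X, ∃ s : ℕ, x ^ (q ^ s) ∈ M ⊔ commutator G) (x : G) :
    ∃ s : ℕ, x ^ (q ^ s) ∈ M := by
  obtain ⟨c, hc⟩ := Subgroup.nilpotent_iff_lowerCentralSeries.1 h
  refine isol_aux q c G ?_ X M hX hM x
  rw [eq_bot_iff, ← hc]
  exact Subgroup.lowerCentralSeries_antitone _ (Nat.le_succ c)

/-- isolator lemma, ambient form. -/
theorem isol_sub (q : ℕ) (X : Set G) (h : Group.IsNilpotent (closure X)) (M : Subgroup G)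
    (hM : ∀ x ∈ X, ∃ s : ℕ, ∃ m ∈ M, m ∈ closure X ∧ ∃ n ∈ ⁅closure X, closure X⁆,
      x ^ (q ^ s) = m * n) (x : G) (hx : x ∈ closure X) : ∃ s : ℕ, x ^ (q ^ s) ∈ M := by
  obtain ⟨s, hs⟩ := isol q (G := closure X) _ (M.subgroupOf (closure X))
    (Subgroup.closure_closure_coe_preimage (k := X)) (by
      intro y hy
      obtain ⟨s, m, hm, hm', n, hn, e⟩ := hM y hy
      refine ⟨s, ?_⟩
      have hn' : n ∈ (commutator (closure X)).map (closure X).subtype := by
        rw [commutator_def, Subgroup.map_commutator, ← MonoidHom.range_eq_map,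
          Subgroup.range_subtype]
        exact hn
      obtain ⟨n', hn'', rfl⟩ := hn'
      have : y ^ (q ^ s) = ⟨m, hm'⟩ * n' := Subtype.ext e
      rw [this]
      exact Subgroup.mul_mem_sup hm hn'') ⟨x, hx⟩
  exact ⟨s, hs⟩

/-- If `M` is normalised by `α` and contains `α β β α⁻¹ β`, a 3-power of `β` lies in `M`. -/
theorem pow_mem_of_nil {α β : G} (h : Group.IsNilpotent (closure ({α, β} : Set G)))
    (M : Subgroup G) (hα : ∀ m ∈ M, ∀ k : ℤ, cj m (α ^ k) ∈ M)
    (hc : α * β * β * α⁻¹ * β ∈ M) : ∃ s : ℕ, β ^ (3 ^ s) ∈ M := by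
  let a : G × Multiplicative ℤ := (α, Multiplicative.ofAdd 1)
  let b : G × Multiplicative ℤ := (β, 1)
  let K : Subgroup (G × Multiplicative ℤ) :=
    { carrier := {x | (α ^ (Multiplicative.toAdd x.2))⁻¹ * x.1 ∈ M}
      one_mem' := by simp
      mul_mem' := by
        intro x y hx hy
        have := M.mul_mem (hα _ hx (Multiplicative.toAdd y.2)) hy
        simp only [Set.mem_ofPred_eq, Prod.snd_mul, toAdd_mul, Prod.fst_mul]
        convert this using 1
        unfold cj; group
      inv_mem' := by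
        intro x hx
        have := hα _ (M.inv_mem hx) (-Multiplicative.toAdd x.2)
        simp only [Set.mem_ofPred_eq, Prod.snd_inv, toAdd_inv, Prod.fst_inv]
        convert this using 1
        unfold cj; group }
  have hnil : Group.IsNilpotent (closure ({a, b} : Set (G × Multiplicative ℤ))) := by
    have hle : closure ({a, b} : Set (G × Multiplicative ℤ)) ≤
        (closure ({α, β} : Set G)).prod ⊤ := by
      rw [Subgroup.closure_le]
      rintro x (rfl | rfl)
      · exact ⟨Subgroup.subset_closure (by simp [a]), trivial⟩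
      · exact ⟨Subgroup.subset_closure (by simp [b]), trivial⟩
    have : Group.IsNilpotent ((closure ({α, β} : Set G)).prod (⊤ : Subgroup (Multiplicative ℤ))) :=
      (Group.isNilpotent_congr (Subgroup.prodEquiv _ _)).2 inferInstance
    exact (Group.isNilpotent_congr (Subgroup.subgroupOfEquivOfLe hle)).1 inferInstance
  have ha : a ∈ closure ({a, b} : Set (G × Multiplicative ℤ)) := Subgroup.subset_closure (by simp)
  have hb : b ∈ closure ({a, b} : Set (G × Multiplicative ℤ)) := Subgroup.subset_closure (by simp)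
  obtain ⟨s, hs⟩ := isol_sub 3 {a, b} hnil K (by
    rintro x (rfl | rfl)
    · exact ⟨0, a, by simp [K, a], ha, 1, one_mem _, by simp⟩
    · refine ⟨1, a * b * b * a⁻¹ * b, ?_, ?_, ⁅b⁻¹ * a, b⁻¹ * b⁻¹⁆, ?_, ?_⟩
      · simpa [K, a, b] using hc
      · exact mul_mem (mul_mem (mul_mem (mul_mem ha hb) hb) (inv_mem ha)) hb
      · exact Subgroup.commutator_mem_commutator (mul_mem (inv_mem hb) ha)
          (mul_mem (inv_mem hb) (inv_mem hb))
      · simp only [commutatorElement_def, pow_succ, pow_zero]; group) b hb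
  refine ⟨s, ?_⟩
  simpa [K, b] using hs

/-- in a nilpotent group an element of `q`-power order commutes with a `q`-power of any element. -/
theorem commute_pow_of_nil (q : ℕ) (G : Type u) [Group G] [Group.IsNilpotent G] :
    ∀ (x y : G) (e : ℕ), x ^ (q ^ e) = 1 → ∃ s : ℕ, Commute x (y ^ (q ^ s)) := by
  refine Group.nilpotent_center_quotient_ind
    (P := fun G _ _ => ∀ (x y : G) (e : ℕ), x ^ (q ^ e) = 1 → ∃ s : ℕ, Commute x (y ^ (q ^ s)))
    G ?_ ?_
  · intro G _ _ x y e _
    exact ⟨0, Subsingleton.elim _ _⟩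
  · intro G _ _ ih x y e he
    obtain ⟨s, hs⟩ := ih (QuotientGroup.mk' _ x) (QuotientGroup.mk' _ y) e
      (by rw [← map_pow, he, map_one])
    rw [← map_pow, ← cm_eq_one, ← map_cm] at hs
    have hz : cm x (y ^ q ^ s) ∈ center G := (QuotientGroup.eq_one_iff _).1 hs
    refine ⟨s + e, ?_⟩
    rw [← cm_eq_one, pow_add, pow_mul, cm_pow_right (mem_center_iff.1 hz _).symm,
      ← cm_pow_left (mem_center_iff.1 hz _).symm, he]
    simp [cm]

/-- a 2-generated nilpotent group whose centre is a `q`-group is a `q`-group. -/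
theorem torsion_of_centre (q : ℕ) (G : Type u) [Group G] [Group.IsNilpotent G] :
    ∀ (α β : G), closure ({α, β} : Set G) = ⊤ →
      (∀ z : G, Commute z α → Commute z β → ∃ s : ℕ, z ^ (q ^ s) = 1) →
      ∀ x : G, ∃ s : ℕ, x ^ (q ^ s) = 1 := by
  refine Group.nilpotent_center_quotient_ind
    (P := fun G _ _ => ∀ (α β : G), closure ({α, β} : Set G) = ⊤ →
      (∀ z : G, Commute z α → Commute z β → ∃ s : ℕ, z ^ (q ^ s) = 1) →
      ∀ x : G, ∃ s : ℕ, x ^ (q ^ s) = 1) G ?_ ?_
  · intro G _ _ α β _ _ x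
    exact ⟨0, Subsingleton.elim _ _⟩
  · intro G _ _ ih α β hg hz x
    have hs := QuotientGroup.mk'_surjective (center G)
    have cen : ∀ z ∈ center G, ∃ s : ℕ, z ^ (q ^ s) = 1 := fun z h =>
      hz z (mem_center_iff.1 h _).symm (mem_center_iff.1 h _).symm
    obtain ⟨s, hs'⟩ := ih (QuotientGroup.mk' _ α) (QuotientGroup.mk' _ β)
      (by
        rw [← Set.image_pair, ← MonoidHom.map_closure, hg, Subgroup.map_top_of_surjective _ hs])
      (by
        intro z h1 h2
        obtain ⟨y, rfl⟩ := hs z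
        rw [← cm_eq_one, ← map_cm] at h1 h2
        have k1 : cm y α ∈ center G := (QuotientGroup.eq_one_iff _).1 h1
        have k2 : cm y β ∈ center G := (QuotientGroup.eq_one_iff _).1 h2
        obtain ⟨s, hs1⟩ := cen _ k1
        obtain ⟨t, ht1⟩ := cen _ k2
        have c1 : Commute (y ^ q ^ (s + t)) α := by
          rw [← cm_eq_one, cm_pow_left (mem_center_iff.1 k1 _).symm, pow_add, pow_mul, hs1, one_pow]
        have c2 : Commute (y ^ q ^ (s + t)) β := by
          rw [← cm_eq_one, cm_pow_left (mem_center_iff.1 k2 _).symm, add_comm, pow_add, pow_mul,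
            ht1, one_pow]
        obtain ⟨r, hr⟩ := hz _ c1 c2
        exact ⟨s + t + r, by rw [← map_pow, pow_add _ (s + t), pow_mul, hr, map_one]⟩)
      (QuotientGroup.mk' _ x)
    rw [← map_pow] at hs'
    obtain ⟨t, ht⟩ := cen _ ((QuotientGroup.eq_one_iff _).1 hs')
    exact ⟨s + t, by rw [pow_add, pow_mul, ht]⟩

end Pool.Agent.P.MP_9682d1_al.A
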