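import Mathlib

set_option autoImplicit false

namespace Pool.Agent.P.MP_9682d1_al.A

open Subgroup
open scoped commutatorElement

variable {G : Type*} [Group G]

/-- In a nilpotent group a subgroup that covers the abelianisation is everything. -/
theorem eq_top_of_sup_commutator (G : Type*) [Group G] [Group.IsNilpotent G] :
    ∀ M : Subgroup G, M ⊔ commutator G = ⊤ → M = ⊤ := by
  refine Group.nilpotent_center_quotient_ind
    (P := fun G _ _ => ∀ M : Subgroup G, M ⊔ commutator G = ⊤ → M = ⊤) G ?_ ?_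
  · intro G _ _ M _
    exact Subsingleton.elim _ _
  · intro G _ _ ih M hM
    have hs := QuotientGroup.mk'_surjective (center G)
    have h1 : M.map (QuotientGroup.mk' (center G)) = ⊤ := by
      apply ih
      have := congrArg (Subgroup.map (QuotientGroup.mk' (center G))) hM
      rw [Subgroup.map_sup, commutator_def, Subgroup.map_commutator,
        Subgroup.map_top_of_surjective _ hs] at this
      exact this
    have h2 : ∀ x : G, ∃ m ∈ M, ∃ z ∈ center G, x = m * z := by
      intro x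
      have : (QuotientGroup.mk' (center G)) x ∈ M.map (QuotientGroup.mk' (center G)) := by
        rw [h1]; trivial
      obtain ⟨m, hm, e⟩ := this
      refine ⟨m, hm, m⁻¹ * x, ?_, by group⟩
      exact QuotientGroup.eq.1 e
    have h3 : commutator G ≤ M := by
      rw [commutator_def, Subgroup.commutator_le]
      intro x _ y _
      obtain ⟨m, hm, z, hz, rfl⟩ := h2 x
      obtain ⟨m', hm', z', hz', rfl⟩ := h2 y
      have c1 := mem_center_iff.1 hz
      have c2 := mem_center_iff.1 hz'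
      have : ⁅m * z, m' * z'⁆ = ⁅m, m'⁆ := by
        simp only [commutatorElement_def, mul_inv_rev]
        calc m * z * (m' * z') * (z⁻¹ * m⁻¹) * (z'⁻¹ * m'⁻¹)
            = m * (z * (m' * z')) * z⁻¹ * m⁻¹ * z'⁻¹ * m'⁻¹ := by group
          _ = m * m' * (z' * m⁻¹) * z'⁻¹ * m'⁻¹ := by rw [← c1 (m' * z')]; group
          _ = _ := by rw [← c2 m⁻¹]; group
      rw [this, commutatorElement_def]
      exact M.mul_mem (M.mul_mem (M.mul_mem hm hm') (M.inv_mem hm)) (M.inv_mem hm')
    rw [← hM, sup_eq_left.2 h3]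

theorem comm_le_iff (X Y N : Subgroup G) [N.Normal] :
    ⁅X, Y⁆ ≤ N ↔
      X ≤ comap (QuotientGroup.mk' N) (centralizer (Y.map (QuotientGroup.mk' N) : Set (G ⧸ N))) := by
  rw [← Subgroup.map_le_iff_le_comap, ← Subgroup.commutator_eq_bot_iff_le_centralizer,
    ← Subgroup.map_commutator, Subgroup.map_eq_bot_iff, QuotientGroup.ker_mk']

theorem comm_sup_le (A B C : Subgroup G) [A.Normal] [B.Normal] [C.Normal] :
    ⁅A ⊔ B, C⁆ ≤ ⁅A, C⁆ ⊔ ⁅B, C⁆ := by
  rw [comm_le_iff, sup_le_iff, ← comm_le_iff, ← comm_le_iff]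
  exact ⟨le_sup_left, le_sup_right⟩

/-- three subgroups lemma modulo a normal subgroup. -/
theorem three_sub (X Y Z N : Subgroup G) [N.Normal] (h1 : ⁅⁅Y, Z⁆, X⁆ ≤ N) (h2 : ⁅⁅Z, X⁆, Y⁆ ≤ N) :
    ⁅⁅X, Y⁆, Z⁆ ≤ N := by
  have key : ∀ S : Subgroup G, S ≤ N ↔ S.map (QuotientGroup.mk' N) = ⊥ := by
    intro S; rw [Subgroup.map_eq_bot_iff, QuotientGroup.ker_mk']
  rw [key] at h1 h2 ⊢
  simp only [Subgroup.map_commutator] at h1 h2 ⊢
  exact Subgroup.commutator_commutator_eq_bot_of_rotate h1 h2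

/-- iterated commutator with the whole group. -/
def tt (X : Subgroup G) : ℕ → Subgroup G
  | 0 => X
  | n + 1 => ⁅tt X n, ⊤⁆

instance tt_normal (X : Subgroup G) [X.Normal] (n : ℕ) : (tt X n).Normal := by
  induction n with
  | zero => assumption
  | succ n ih => unfold tt; infer_instance

theorem tt_succ' (X : Subgroup G) (n : ℕ) : tt X (n + 1) = tt ⁅X, ⊤⁆ n := by
  induction n with
  | zero => rfl
  | succ n ih => rw [tt, ih]; rfl

theorem tt_add (X : Subgroup G) (m n : ℕ) : tt X (m + n) = tt (tt X m) n := by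
  induction n with
  | zero => rfl
  | succ n ih => rw [← add_assoc, tt, ih]; rfl

theorem tt_mono {X Y : Subgroup G} (h : X ≤ Y) (n : ℕ) : tt X n ≤ tt Y n := by
  induction n with
  | zero => exact h
  | succ n ih => exact Subgroup.commutator_mono ih le_rfl

theorem tt_le (X : Subgroup G) [X.Normal] (n : ℕ) : tt X n ≤ X := by
  induction n with
  | zero => exact le_rfl
  | succ n ih => exact (Subgroup.commutator_le_left _ _).trans ih

theorem tt_anti (X : Subgroup G) [X.Normal] {m n : ℕ} (h : m ≤ n) : tt X n ≤ tt X m := by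
  obtain ⟨k, rfl⟩ := Nat.exists_eq_add_of_le h
  rw [tt_add]; exact tt_le _ _

theorem tt_sup (A B : Subgroup G) [A.Normal] [B.Normal] (n : ℕ) :
    tt (A ⊔ B) n ≤ tt A n ⊔ tt B n := by
  induction n with
  | zero => exact le_rfl
  | succ n ih => exact (Subgroup.commutator_mono ih le_rfl).trans (comm_sup_le _ _ _)

theorem tt_top (n : ℕ) : tt (⊤ : Subgroup G) n = (⊤ : Subgroup G).lowerCentralSeries n := by
  induction n with
  | zero => rfl
  | succ n ih => rw [tt, ih]; rfl

theorem tt_comm (N : Subgroup G) (s : ℕ) : ∀ (X Y : Subgroup G) [X.Normal] [Y.Normal],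
    (∀ j l, j + l = s → ⁅tt X j, tt Y l⁆ ≤ N) → tt ⁅X, Y⁆ s ≤ N := by
  induction s with
  | zero => intro X Y _ _ h; exact h 0 0 rfl
  | succ s ih =>
    intro X Y _ _ h
    rw [tt_succ']
    have h1 : ⁅⁅X, Y⁆, (⊤ : Subgroup G)⁆ ≤ ⁅⁅X, (⊤ : Subgroup G)⁆, Y⁆ ⊔ ⁅X, ⁅Y, (⊤ : Subgroup G)⁆⁆ := by
      apply three_sub
      · rw [Subgroup.commutator_comm]; exact le_sup_right
      · rw [Subgroup.commutator_comm ⊤ X]; exact le_sup_left
    refine (tt_mono h1 s).trans ((tt_sup _ _ s).trans (sup_le ?_ ?_))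
    · apply ih
      intro j l e
      rw [← tt_succ']; exact h _ _ (by omega)
    · apply ih
      intro j l e
      rw [← tt_succ']; exact h _ _ (by omega)

theorem hall_aux (B : Subgroup G) [B.Normal] (k : ℕ) (hk : tt B k ≤ ⁅B, B⁆) (i : ℕ) :
    ∃ m, tt B m ≤ B.lowerCentralSeries i := by
  have step : ∀ i, ∃ p, tt (B.lowerCentralSeries i) p ≤ B.lowerCentralSeries (i + 1) := by
    intro i
    induction i with
    | zero => exact ⟨k, hk⟩
    | succ i ih =>
      obtain ⟨p, hp⟩ := ih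
      refine ⟨p + k, tt_comm _ _ _ _ fun j l e => ?_⟩
      by_cases hj : p ≤ j
      · exact Subgroup.commutator_mono ((tt_anti _ hj).trans hp) (tt_le _ _)
      · have hl : k ≤ l := by omega
        refine (Subgroup.commutator_mono (tt_le _ _) ((tt_anti _ hl).trans hk)).trans ?_
        rw [Subgroup.commutator_comm]
        apply three_sub
        · rw [Subgroup.commutator_comm B]; exact le_rfl
        · exact le_rfl
  induction i with
  | zero => exact ⟨0, le_rfl⟩
  | succ i ih =>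
    obtain ⟨m, hm⟩ := ih
    obtain ⟨p, hp⟩ := step i
    exact ⟨m + p, by rw [tt_add]; exact (tt_mono hm p).trans hp⟩

/-- P. Hall's criterion. -/
theorem hall (B : Subgroup G) [B.Normal] (hB : Group.IsNilpotent B)
    (hQ : Group.IsNilpotent (G ⧸ ⁅B, B⁆)) : Group.IsNilpotent G := by
  obtain ⟨c, hc⟩ := (Subgroup.isNilpotent_iff_lowerCentralSeries B).1 hB
  obtain ⟨k, hk⟩ := Subgroup.nilpotent_iff_lowerCentralSeries.1 hQ
  have h1 : tt (⊤ : Subgroup G) k ≤ ⁅B, B⁆ := by
    rw [tt_top, ← QuotientGroup.ker_mk' ⁅B, B⁆, ← Subgroup.map_eq_bot_iff,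
      Subgroup.map_lowerCentralSeries,
      Subgroup.map_top_of_surjective _ (QuotientGroup.mk'_surjective _), hk]
  obtain ⟨m, hm⟩ := hall_aux B k ((tt_mono le_top k).trans h1) c
  refine Subgroup.nilpotent_iff_lowerCentralSeries.2 ⟨k + m, ?_⟩
  rw [← tt_top, tt_add, eq_bot_iff, ← hc]
  exact (tt_mono (h1.trans (Subgroup.commutator_le_left _ _)) m).trans hm

end Pool.Agent.P.MP_9682d1_al.A
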