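import Mathlib
import Pool.Agent.P.MP_9682d1_al.A.Basic

set_option autoImplicit false

namespace Pool.Agent.P.MP_9682d1_al.A

variable {G : Type*} [Group G]

/-- the identity (M), basic form. -/
theorem idM {a : G} (ha : RE4 a) (g w am a1 a2 a3 : G) (hm : am = cj a g⁻¹) (h1 : a1 = cj a g)
    (h2 : a2 = cj a1 g) (h3 : a3 = cj a2 g) (c0 : Commute w a) (c1 : Commute w a1) :
    cm a3 (cj w g) = cj (cm am⁻¹ w⁻¹) a ∧ Commute (cm a3 (cj w g)) (a2⁻¹ * a1 * a⁻¹ * a1) := by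
  set w1 := cj w g with hw1
  have d1 : Commute w1 a1 := by rw [hw1, h1]; exact commute_cj c0 g
  have d2 : Commute w1 a2 := by rw [hw1, h2]; exact commute_cj c1 g
  have j0 : cj a w = a := cj_eq_self.2 c0.symm
  have j0' : cj a w⁻¹ = a := cj_eq_self.2 c0.symm.inv_right
  have j1 : cj a1 w = a1 := cj_eq_self.2 c1.symm
  have j1' : cj a1 w⁻¹ = a1 := cj_eq_self.2 c1.symm.inv_right
  have k1 : cj a1 w1 = a1 := cj_eq_self.2 d1.symm
  have k2 : cj a2 w1 = a2 := cj_eq_self.2 d2.symm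
  obtain ⟨P1, P2⟩ := idP ha g am a1 a2 a3 hm h1 h2 h3
  obtain ⟨Q1, Q2⟩ := idP ha (g * w) am a1 (cj a2 w) (cj (cj a3 w1) w)
    (by rw [mul_inv_rev, ← cj_cj, j0', hm]) (by rw [← cj_cj, ← h1, j1])
    (by rw [← cj_cj, ← h2]) (by rw [hw1, h3]; unfold cj; group)
  set pm := am⁻¹ * a * a1⁻¹ * a with hpm
  set p0 := a⁻¹ * a1 * a2⁻¹ * a1 with hp0
  set p1 := a1⁻¹ * a2 * a3⁻¹ * a2 with hp1
  have e0 : a⁻¹ * a1 * (cj a2 w)⁻¹ * a1 = cj p0 w := by
    rw [hp0]; simp only [cj_mul, cj_inv, j0, j1]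
  have e1 : a1⁻¹ * cj a2 w * (cj (cj a3 w1) w)⁻¹ * cj a2 w = cj (cj p1 w1) w := by
    rw [hp1]; simp only [cj_mul, cj_inv, j1, k1, k2]
  rw [e0] at Q1 Q2
  rw [e1] at Q2
  have R1 : Commute (cj pm w⁻¹) p0 := by
    apply commute_of_cj w
    simpa [cj_cj, cj_one] using Q1
  have R2 : cj pm w⁻¹ * cj p1 w1 = p0 * p0 := by
    have := congrArg (fun z => cj z w⁻¹) Q2
    simpa [cj_mul, cj_cj, cj_one] using this
  set r := cm a3 w1 with hr
  set s := cm am⁻¹ w⁻¹ with hs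
  have S1 : pm⁻¹ * cj pm w⁻¹ = cj s (a * a1⁻¹ * a) := by
    rw [hpm, hs]; simp only [cj_mul, cj_inv, j0', j1']
    unfold cm cj; group
  have S2 : p1 * (cj p1 w1)⁻¹ = cj r (a2⁻¹ * a1) := by
    rw [hp1, hr]; simp only [cj_mul, cj_inv, k1, k2]
    unfold cm cj; group
  have S3 : pm⁻¹ * cj pm w⁻¹ = p1 * (cj p1 w1)⁻¹ := by
    have : cj pm w⁻¹ * cj p1 w1 = pm * p1 := R2.trans P2.symm
    calc pm⁻¹ * cj pm w⁻¹ = pm⁻¹ * (cj pm w⁻¹ * cj p1 w1) * (cj p1 w1)⁻¹ := by group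
      _ = _ := by rw [this]; group
  have S4 : Commute (cj r (a2⁻¹ * a1)) p0 := by
    rw [← S2, ← S3]
    exact (P1.inv_left).mul_left R1
  have T : Commute r (a2⁻¹ * a1 * a⁻¹ * a1) := by
    apply commute_of_cj (a2⁻¹ * a1)
    have : cj (a2⁻¹ * a1 * a⁻¹ * a1) (a2⁻¹ * a1) = p0 := by rw [hp0]; unfold cj; group
    rw [this]; exact S4
  refine ⟨?_, T⟩
  have U : cj r (a2⁻¹ * a1) = cj s (a * a1⁻¹ * a) := by rw [← S2, ← S3, S1]
  have V : cj r (a2⁻¹ * a1 * a⁻¹ * a1) = cj s a := by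
    have : cj r (a2⁻¹ * a1 * a⁻¹ * a1) = cj (cj r (a2⁻¹ * a1)) (a⁻¹ * a1) := by
      rw [cj_cj]; congr 1; group
    rw [this, U, cj_cj]; congr 1; group
  rw [← V, cj_eq_self.2 T]

/-- (M), variation `g -> a^i g`. -/
theorem idM2 {a : G} (ha : RE4 a) (g w a1 a2 a3 : G) (h1 : a1 = cj a g)
    (h2 : a2 = cj a1 g) (h3 : a3 = cj a2 g) (c0 : Commute w a) (c1 : Commute w a1) (i : ℤ) :
    Commute (cm a3 (cj w g)) (a2 ^ i * a1 ^ i * a ^ i) ∧
      Commute (cj (cm a3 (cj w g)) (a ^ i)⁻¹) ((cj a2 (a1 ^ i))⁻¹ * a1 * a⁻¹ * a1) := by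
  obtain ⟨M1, -⟩ := idM ha g w _ a1 a2 a3 rfl h1 h2 h3 c0 c1
  have ja : cj a (a ^ i) = a := cj_eq_self.2 ((Commute.refl a).zpow_right i)
  have jw : cj w (a ^ i) = w := cj_eq_self.2 (c0.zpow_right i)
  have jw' : cj w⁻¹ (a ^ i)⁻¹ = w⁻¹ := cj_eq_self.2 (c0.zpow_right i).inv_inv
  have g1 : cj (a ^ i) g = a1 ^ i := by rw [cj_zpow, ← h1]
  have g2 : cj (a1 ^ i) g = a2 ^ i := by rw [cj_zpow, ← h2]
  obtain ⟨N1, N2⟩ := idM ha (a ^ i * g) w (cj (cj a g⁻¹) (a ^ i)⁻¹) a1 (cj a2 (a1 ^ i))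
    (cj a3 (a2 ^ i * a1 ^ i)) (by rw [mul_inv_rev, cj_cj]) (by rw [← cj_cj, ja, h1])
    (by rw [← g1, h2]; unfold cj; group) (by rw [← g2, ← g1, h3]; unfold cj; group) c0 c1
  have hw : cj w (a ^ i * g) = cj w g := by rw [← cj_cj, jw]
  rw [hw] at N1 N2
  set w1 := cj w g with hw1
  have d1 : Commute w1 a1 := by rw [hw1, h1]; exact commute_cj c0 g
  have d2 : Commute w1 a2 := by rw [hw1, h2]; exact commute_cj c1 g
  have k : cj w1 (a2 ^ i * a1 ^ i) = w1 :=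
    cj_eq_self.2 ((d2.zpow_right i).mul_right (d1.zpow_right i))
  set r := cm a3 w1 with hr
  have L : cm (cj a3 (a2 ^ i * a1 ^ i)) w1 = cj r (a2 ^ i * a1 ^ i) := by rw [hr, cj_cm, k]
  have R : cj (cm (cj (cj a g⁻¹) (a ^ i)⁻¹)⁻¹ w⁻¹) a = cj r (a ^ i)⁻¹ := by
    rw [M1, ← cj_inv, ← jw', ← cj_cm, jw', cj_cj, cj_cj]
    congr 1
    exact ((Commute.refl a).zpow_left i).inv_left.eq
  rw [L] at N1 N2
  rw [R] at N1
  rw [N1] at N2
  refine ⟨?_, N2⟩
  apply cj_eq_self.1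
  rw [← cj_cj, N1, cj_cj]; simp [cj_one]

/-- `r` commutes with `T_j = a_0^j a_1^j a_2^j`. -/
theorem idT {a : G} (ha : RE4 a) (g w a1 a2 a3 : G) (h1 : a1 = cj a g)
    (h2 : a2 = cj a1 g) (h3 : a3 = cj a2 g) (c0 : Commute w a) (c1 : Commute w a1) (j : ℤ) :
    Commute (cm a3 (cj w g)) (a ^ j * a1 ^ j * a2 ^ j) := by
  have := (idM2 ha g w a1 a2 a3 h1 h2 h3 c0 c1 (-j)).1.inv_right
  have e : (a2 ^ (-j) * a1 ^ (-j) * a ^ (-j))⁻¹ = a ^ j * a1 ^ j * a2 ^ j := by group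
  rwa [e] at this

/-- `r` commutes with all conjugates of `c = a a1 a1 a⁻¹ a1` by powers of `a`. -/
theorem idC {a : G} (ha : RE4 a) (g w a1 a2 a3 : G) (h1 : a1 = cj a g)
    (h2 : a2 = cj a1 g) (h3 : a3 = cj a2 g) (c0 : Commute w a) (c1 : Commute w a1) (i : ℤ) :
    Commute (cm a3 (cj w g)) (cj (a * a1 * a1 * a⁻¹ * a1) (a ^ i)) := by
  have N2 := (idM2 ha g w a1 a2 a3 h1 h2 h3 c0 c1 i).2
  have A1 := (idM2 ha g w a1 a2 a3 h1 h2 h3 c0 c1 i).1
  have A2 := (idM2 ha g w a1 a2 a3 h1 h2 h3 c0 c1 (i - 1)).1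
  set r := cm a3 (cj w g) with hr
  have B1 : Commute (cj r (a ^ i)⁻¹) (a * a1 * cj a2 (a1 ^ i)) := by
    apply commute_of_cj (a ^ i)
    have e1 : cj (cj r (a ^ i)⁻¹) (a ^ i) = r := by simp [cj_cj, cj_one]
    have e2 : cj (a * a1 * cj a2 (a1 ^ i)) (a ^ i) =
        (a2 ^ (i - 1) * a1 ^ (i - 1) * a ^ (i - 1))⁻¹ * (a2 ^ i * a1 ^ i * a ^ i) := by
      unfold cj; group
    rw [e1, e2]
    exact A2.inv_right.mul_right A1
  have B2 := B1.mul_right N2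
  have e3 : a * a1 * cj a2 (a1 ^ i) * ((cj a2 (a1 ^ i))⁻¹ * a1 * a⁻¹ * a1) =
      a * a1 * a1 * a⁻¹ * a1 := by group
  rw [e3] at B2
  have := commute_cj B2 (a ^ i)
  simpa [cj_cj, cj_one] using this

/-- (W3), one step in both directions. -/
theorem w3_step {a : G} (ha : RE4 a) (g y am a1 a2 a3 : G) (hm : am = cj a g⁻¹) (h1 : a1 = cj a g)
    (h2 : a2 = cj a1 g) (h3 : a3 = cj a2 g) (c0 : Commute y a) (c1 : Commute y a1)
    (c2 : Commute y a2) : Commute y a3 ∧ Commute y am := by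
  constructor
  · have e0 : Commute (cj y g⁻¹) a := by
      apply commute_of_cj g
      rw [← h1]; simpa [cj_cj, cj_one] using c1
    have e1 : Commute (cj y g⁻¹) a1 := by
      apply commute_of_cj g
      rw [← h2]; simpa [cj_cj, cj_one] using c2
    have em : Commute (cj y g⁻¹) am := by rw [hm]; exact commute_cj c0 _
    obtain ⟨M1, -⟩ := idM ha g (cj y g⁻¹) am a1 a2 a3 hm h1 h2 h3 e0 e1
    rw [cm_eq_one.2 em.symm.inv_inv] at M1
    simp only [cj_cj, inv_mul_cancel, cj_one] at M1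
    have : cm a3 y = 1 := by rw [M1]; simp [cj]
    exact (cm_eq_one.1 this).symm
  · obtain ⟨M1, -⟩ := idM ha g y am a1 a2 a3 hm h1 h2 h3 c0 c1
    have e3 : Commute (cj y g) a3 := by rw [h3]; exact commute_cj c2 _
    rw [cm_eq_one.2 e3.symm] at M1
    have : cm am⁻¹ y⁻¹ = 1 := by
      have h := congrArg (fun z => cj z a⁻¹) M1
      simp only [cj_cj, mul_inv_cancel, cj_one] at h
      rw [← h]; simp [cj]
    exact (Commute.inv_inv_iff.1 (cm_eq_one.1 this)).symm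

/-- the sequence `a_n = a^(g^n)`. -/
def sq (a g : G) (n : ℤ) : G := cj a (g ^ n)

theorem sq_succ (a g : G) (n : ℤ) : sq a g (n + 1) = cj (sq a g n) g := by
  unfold sq cj; group

theorem sq_pred (a g : G) (n : ℤ) : sq a g (n - 1) = cj (sq a g n) g⁻¹ := by
  unfold sq cj; group

theorem sq_zero (a g : G) : sq a g 0 = a := by simp [sq, cj]

theorem sq_one (a g : G) : sq a g 1 = cj a g := by simp [sq]

theorem sq_two (a g : G) : sq a g 2 = cj (cj a g) g := by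
  have := sq_succ a g 1
  rwa [sq_one] at this

theorem map_sq {H : Type*} [Group H] (f : G →* H) (a g : G) (n : ℤ) :
    f (sq a g n) = sq (f a) (f g) n := by
  simp [sq, map_cj]

/-- (W3): an element commuting with three consecutive terms commutes with all terms. -/
theorem w3 {a : G} (ha : RE4 a) (g y : G) (k : ℤ) (c0 : Commute y (sq a g k))
    (c1 : Commute y (sq a g (k + 1))) (c2 : Commute y (sq a g (k + 1 + 1))) (n : ℤ) :
    Commute y (sq a g n) := by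
  have key : ∀ m : ℤ, Commute y (sq a g (k + m)) ∧ Commute y (sq a g (k + m + 1)) ∧
      Commute y (sq a g (k + m + 1 + 1)) := by
    intro m
    induction m using Int.induction_on with
    | zero => simpa using ⟨c0, c1, c2⟩
    | succ m ih =>
      have := (w3_step (ha.cj (g ^ (k + m))) g y _ _ _ _ rfl (sq_succ a g _) (sq_succ a g _)
        (sq_succ a g _) ih.1 ih.2.1 ih.2.2).1
      rw [← add_assoc]
      exact ⟨ih.2.1, ih.2.2, this⟩
    | pred m ih =>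
      have := (w3_step (ha.cj (g ^ (k + -m))) g y _ _ _ _ (sq_pred a g _) (sq_succ a g _)
        (sq_succ a g _) rfl ih.1 ih.2.1 ih.2.2).2
      have e : k + (-(m : ℤ) - 1) = k + -m - 1 := by ring
      have e1 : k + -(m : ℤ) - 1 + 1 = k + -m := by ring
      rw [e, e1]
      exact ⟨this, ih.1, ih.2.1⟩
  have := (key (n - k)).1
  simpa using this

/-- Heineken: the inverse of a right 4-Engel element is left 5-Engel. -/
theorem heineken {a : G} (ha : RE4 a) (x : G) :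
    cm (cm (cm (cm (cm x a⁻¹) a⁻¹) a⁻¹) a⁻¹) a⁻¹ = 1 := by
  have e : cm (cm x a⁻¹) a⁻¹ = cj (cm (cj a x) a⁻¹) a⁻¹ := by unfold cm cj; group
  have ja : cj a⁻¹ a⁻¹ = a⁻¹ := by unfold cj; group
  have h' := congrArg (fun z => cj z a⁻¹) ((ha.cj x) a⁻¹)
  simp only [cj_cm, ja] at h'
  rw [e, cj_cm, ja, h']; simp [cj]

/-- for `u` right 4-Engel and `x` arbitrary, `y = x^u`: the pair `(x, x^y)` has class at most 2. -/
theorem class_two {u : G} (hu : RE4 u) (x : G) :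
    Commute (cm x (cj x (cj x u))) x ∧ Commute (cm x (cj x (cj x u))) (cj x (cj x u)) := by
  set y := cj x u with hy
  have h1 : Commute (cm (cm y⁻¹ x) x) x := by
    apply commute_of_cj x
    have jx : cj x x = x := by unfold cj; group
    have : cj (cm (cm y⁻¹ x) x) x = cm (cm (cm u x) x) x := by rw [hy]; unfold cm cj; group
    rw [this, jx]; exact cm_eq_one.1 (hu x)
  have h2 : Commute (cm (cm y x⁻¹) x⁻¹) x := by
    apply commute_of_cj x⁻¹
    have jx : cj x x⁻¹ = x := by unfold cj; group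
    have : cj (cm (cm y x⁻¹) x⁻¹) x⁻¹ = cm (cm (cm u x⁻¹) x⁻¹) x⁻¹ := by
      rw [hy]
      simp only [cm, cj, mul_inv_rev, inv_inv, mul_assoc, inv_mul_cancel_left]
    rw [this, jx]; exact Commute.inv_right_iff.1 (cm_eq_one.1 (hu x⁻¹))
  set c := cm (cm y⁻¹ x) x with hc
  set d := cm (cm y x⁻¹) x⁻¹ with hd
  have f1 : cj d (x * x) = d := cj_eq_self.2 (h2.mul_right h2)
  have f2 : cj d x = d := cj_eq_self.2 h2
  have f3 : cj c x⁻¹ = c := cj_eq_self.2 h1.inv_right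
  have e1 : d⁻¹ = cj c (cj y x) := by rw [← f1, hc, hd]; unfold cm cj; group
  have e2 : d⁻¹ = cj c y := by rw [← f2, ← f3, hc, hd]; unfold cm cj; group
  have h3 : Commute c (cm y⁻¹ x) := by
    apply cj_eq_self.1
    have : cm y⁻¹ x = y * (cj y x)⁻¹ := by unfold cm cj; group
    rw [this, ← cj_cj, ← e2, e1, cj_cj]; simp [cj_one]
  -- `z = x^(y⁻¹)`, `cm y⁻¹ x = z⁻¹ x`
  have h4 : Commute c (cj x y⁻¹) := by
    have : cj x y⁻¹ = x * (cm y⁻¹ x)⁻¹ := by unfold cm cj; group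
    rw [this]; exact h1.mul_right h3.inv_right
  have e3 : c = cj (cm (cj x y⁻¹)⁻¹ x) x := by rw [hc]; unfold cm cj; group
  set z := cj x y⁻¹ with hz
  have e4 : cm z x = cj c⁻¹ (x⁻¹ * z) := by rw [e3]; unfold cm cj; group
  have e5 : cj c⁻¹ (x⁻¹ * z) = c⁻¹ := cj_eq_self.2 (h1.inv_right.mul_right h4).inv_left
  have e6 : cm x (cj x y) = cj (cm z x) y := by rw [cj_cm, hz]; simp [cj_cj, cj_one]
  have e7 : x = cj z y := by rw [hz]; simp [cj_cj, cj_one]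
  rw [e6, e4, e5]
  constructor
  · have := commute_cj h4.inv_left y
    rwa [← e7] at this
  · exact commute_cj h1.inv_left y

end Pool.Agent.P.MP_9682d1_al.A
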