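import Mathlib
import Pool.Agent.P.MP_9682d1_al.A.IdM
import Pool.Agent.P.MP_9682d1_al.A.Hall
import Pool.Agent.P.MP_9682d1_al.C.Defs

set_option autoImplicit false

namespace Pool.Agent.P.MP_9682d1_al.A

open Subgroup
open scoped commutatorElement

universe u

variable {G : Type*} [Group G]

theorem cm_eq_C (a x : G) : cm a x = C.cm a x := rfl

theorem re4_iff_C (a : G) : RE4 a ↔ C.RE 4 a := Iff.rfl

/-- only `1` commutes with `a_0, a_1, a_2`. -/
def Cless (a g : G) : Prop :=
  ∀ q : G, Commute q a → Commute q (cj a g) → Commute q (cj (cj a g) g) → q = 1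

theorem normal_sq {a g : G} (hg : closure ({a, g} : Set G) = ⊤) :
    (closure (Set.range (sq a g))).Normal := by
  set B := closure (Set.range (sq a g)) with hB
  have key : ∀ x : G, (∀ n, cj (sq a g n) x ∈ B) → ∀ b ∈ B, cj b x ∈ B := by
    intro x hx b hb
    induction hb using Subgroup.closure_induction with
    | mem y hy => obtain ⟨n, rfl⟩ := hy; exact hx n
    | one => simp [cj]
    | mul y z _ _ hy hz => rw [cj_mul]; exact B.mul_mem hy hz
    | inv y _ hy => rw [cj_inv]; exact B.inv_mem hy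
  have hs : ∀ n, sq a g n ∈ B := fun n => Subgroup.subset_closure ⟨n, rfl⟩
  have ha : a ∈ B := by simpa [sq_zero] using hs 0
  have all : ∀ x ∈ closure ({a, g} : Set G), (∀ b ∈ B, cj b x ∈ B) ∧ ∀ b ∈ B, cj b x⁻¹ ∈ B := by
    intro x hx
    induction hx using Subgroup.closure_induction with
    | mem y hy =>
      rcases hy with rfl | rfl
      · exact ⟨fun b hb => B.mul_mem (B.mul_mem (B.inv_mem ha) hb) ha,
          fun b hb => B.mul_mem (B.mul_mem (B.inv_mem (B.inv_mem ha)) hb) (B.inv_mem ha)⟩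
      · exact ⟨key _ fun n => by rw [← sq_succ]; exact hs _,
          key _ fun n => by rw [← sq_pred]; exact hs _⟩
    | one => simp [cj]
    | mul y z _ _ hy hz =>
      refine ⟨fun b hb => ?_, fun b hb => ?_⟩
      · rw [← cj_cj]; exact hz.1 _ (hy.1 b hb)
      · rw [mul_inv_rev, ← cj_cj]; exact hy.2 _ (hz.2 b hb)
    | inv y _ hy => exact ⟨hy.2, by rw [inv_inv]; exact hy.1⟩
  refine ⟨fun b hb x => ?_⟩
  have := (all x (by rw [hg]; trivial)).2 b hb
  simpa [cj] using this

/-- relative upper central series. -/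
def upS (B : Subgroup G) [B.Normal] : ℕ → {K : Subgroup G // K.Normal}
  | 0 => ⟨⊥, inferInstance⟩
  | n + 1 =>
    haveI := (upS B n).2
    ⟨comap (QuotientGroup.mk' (upS B n).1)
      (centralizer (B.map (QuotientGroup.mk' (upS B n).1) : Set (G ⧸ (upS B n).1))), by
      have : (B.map (QuotientGroup.mk' (upS B n).1)).Normal :=
        Subgroup.Normal.map inferInstance _ (QuotientGroup.mk'_surjective _)
      infer_instance⟩

theorem le_upS_succ (B : Subgroup G) [B.Normal] (n : ℕ) (X : Subgroup G) :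
    X ≤ (upS B (n + 1)).1 ↔ ⁅X, B⁆ ≤ (upS B n).1 := by
  have := (upS B n).2
  rw [comm_le_iff]; rfl

theorem upS_mono (B : Subgroup G) [B.Normal] : Monotone fun n => (upS B n).1 := by
  apply monotone_nat_of_le_succ
  intro n
  have := (upS B n).2
  rw [le_upS_succ]
  exact Subgroup.commutator_le_left _ _

theorem nil_of_le_upS (B : Subgroup G) [B.Normal] (n : ℕ) (h : B ≤ (upS B n).1) :
    Group.IsNilpotent B := by
  have key : ∀ k m, k + m = n → B.lowerCentralSeries k ≤ (upS B m).1 := by
    intro k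
    induction k with
    | zero => intro m e; rw [zero_add] at e; rw [e]; exact h
    | succ k ih =>
      intro m e
      exact (le_upS_succ B m _).1 (ih (m + 1) (by omega))
  exact Subgroup.isNilpotent_of_lowerCentralSeries_eq_bot (n := n) (le_bot_iff.1 (key n 0 rfl))

theorem nil_of_abelian {a g : G} (ha : RE4 a) (hg : closure ({a, g} : Set G) = ⊤)
    (B : Subgroup G) [B.Normal] (haB : a ∈ B) (hB : ∀ x ∈ B, ∀ y ∈ B, Commute x y) :
    Group.IsNilpotent G := by
  have step : ∀ (n : ℕ) (e : G), e ∈ B → cm e g ∈ Subgroup.upperCentralSeries G n →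
      e ∈ Subgroup.upperCentralSeries G (n + 1) := by
    intro n e he h
    apply C.mem_ucs_gen hg
    rintro t (rfl | rfl)
    · rw [← cm_eq_C, cm_eq_one.2 (hB _ he _ haB)]; exact one_mem _
    · exact h
  have m1 : cm a g ∈ B := C.cm_mem_left haB g
  have m2 : cm (cm a g) g ∈ B := C.cm_mem_left m1 g
  have m3 : cm (cm (cm a g) g) g ∈ B := C.cm_mem_left m2 g
  have h4 : a ∈ Subgroup.upperCentralSeries G 4 :=
    step _ _ haB (step _ _ m1 (step _ _ m2 (step _ _ m3 (by rw [ha g]; exact one_mem _))))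
  have h5 : g ∈ Subgroup.upperCentralSeries G 5 := by
    apply C.mem_ucs_gen hg
    rintro t (rfl | rfl)
    · exact C.cm_mem_right _ h4
    · rw [C.cm_self]; exact one_mem _
  refine ⟨5, ?_⟩
  rw [eq_top_iff, ← hg, Subgroup.closure_le]
  rintro t (rfl | rfl)
  · exact Subgroup.upperCentralSeries_mono G (by norm_num) h4
  · exact h5

/-- `⟨a,g⟩` is nilpotent as soon as `a` dies in every centreless quotient. -/
theorem nil_of_cless {G : Type u} [Group G] {a g : G} (ha : RE4 a)
    (hg : closure ({a, g} : Set G) = ⊤)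
    (h : ∀ (Q : Type u) [Group Q] (φ : G →* Q), Function.Surjective φ →
      Cless (φ a) (φ g) → φ a = 1) : Group.IsNilpotent G := by
  set B := closure (Set.range (sq a g)) with hB
  have hBn : B.Normal := normal_sq hg
  have hd : Directed (· ≤ ·) fun n => (upS B n).1 := (upS_mono B).directed_le
  let Z : Subgroup G := ⨆ n, (upS B n).1
  have hZ : ∀ x, x ∈ Z ↔ ∃ n, x ∈ (upS B n).1 := fun x => Subgroup.mem_iSup_of_directed hd
  have hZn : Z.Normal := ⟨fun x hx k => by
    obtain ⟨n, hn⟩ := (hZ x).mp hx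
    exact (hZ _).mpr ⟨n, (upS B n).2.conj_mem x hn k⟩⟩
  have haB : a ∈ B := Subgroup.subset_closure ⟨0, sq_zero a g⟩
  have key := h (G ⧸ Z) (QuotientGroup.mk' Z) (QuotientGroup.mk'_surjective Z) (by
    intro q h0 h1 h2
    obtain ⟨y, rfl⟩ := QuotientGroup.mk'_surjective Z q
    simp only [← map_cj] at h1 h2
    rw [← cm_eq_one, ← map_cm] at h0 h1 h2
    obtain ⟨n0, k0⟩ := (hZ _).1 ((QuotientGroup.eq_one_iff _).1 h0)
    obtain ⟨n1, k1⟩ := (hZ _).1 ((QuotientGroup.eq_one_iff _).1 h1)
    obtain ⟨n2, k2⟩ := (hZ _).1 ((QuotientGroup.eq_one_iff _).1 h2)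
    set n := n0 + n1 + n2 with hn
    have hKn := (upS B n).2
    set K := (upS B n).1 with hK
    have tr : ∀ (m : ℕ) (t : G), m ≤ n → cm y t ∈ (upS B m).1 →
        Commute (QuotientGroup.mk' K y) (QuotientGroup.mk' K t) := by
      intro m t hm ht
      rw [← cm_eq_one, ← map_cm]
      exact (QuotientGroup.eq_one_iff _).2 (upS_mono B hm ht)
    have all := w3 (ha.map (QuotientGroup.mk'_surjective K)) (QuotientGroup.mk' K g)
      (QuotientGroup.mk' K y) 0
      (by rw [sq_zero]; exact tr n0 _ (by omega) k0)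
      (by rw [zero_add, sq_one, ← map_cj]; exact tr n1 _ (by omega) k1)
      (by rw [zero_add, sq_succ, sq_one, ← map_cj, ← map_cj]; exact tr n2 _ (by omega) k2)
    refine (QuotientGroup.eq_one_iff _).2 ((hZ _).2 ⟨n + 1, ?_⟩)
    show QuotientGroup.mk' K y ∈ centralizer (B.map (QuotientGroup.mk' K) : Set (G ⧸ K))
    rw [hB, MonoidHom.map_closure, Subgroup.centralizer_closure, Subgroup.mem_centralizer_iff]
    rintro _ ⟨_, ⟨m, rfl⟩, rfl⟩
    rw [map_sq]
    exact (all m).symm.eq)
  obtain ⟨n, hn⟩ := (hZ a).1 ((QuotientGroup.eq_one_iff _).1 key)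
  have hBle : B ≤ (upS B n).1 := by
    refine (Subgroup.closure_le _).2 ?_
    rintro _ ⟨m, rfl⟩
    simpa [sq, cj] using (upS B n).2.conj_mem a hn (g ^ m)⁻¹
  refine hall B (nil_of_le_upS B n hBle) ?_
  have hs := QuotientGroup.mk'_surjective ⁅B, B⁆
  have : (B.map (QuotientGroup.mk' ⁅B, B⁆)).Normal := Subgroup.Normal.map hBn _ hs
  refine nil_of_abelian (ha.map hs) (g := QuotientGroup.mk' _ g) ?_
    (B.map (QuotientGroup.mk' ⁅B, B⁆)) (Subgroup.mem_map_of_mem _ haB) ?_
  · rw [← Set.image_pair, ← MonoidHom.map_closure, hg, Subgroup.map_top_of_surjective _ hs]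
  · rintro _ ⟨x, hx, rfl⟩ _ ⟨y, hy, rfl⟩
    rw [← commutatorElement_eq_one_iff_commute, ← map_commutatorElement]
    exact (QuotientGroup.eq_one_iff _).2 (Subgroup.commutator_mem_commutator hx hy)

theorem closure_pair_top (a g : G) :
    closure ({⟨a, Subgroup.subset_closure (by simp)⟩, ⟨g, Subgroup.subset_closure (by simp)⟩} :
      Set (closure ({a, g} : Set G))) = ⊤ := by
  rw [← Subgroup.closure_closure_coe_preimage (k := ({a, g} : Set G))]
  congr 1
  ext x
  simp [Subtype.ext_iff]

/-- Lemma Z follows from its centreless core (`m = 0`: no order condition). -/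
theorem lemZ_gen (m : ℕ)
    (core : ∀ (Q : Type u) [Group Q] (a g : Q), RE4 a → a ^ m = 1 →
      closure ({a, g} : Set Q) = ⊤ → Group.IsNilpotent (closure ({a, cj a g} : Set Q)) →
      Cless a g → a = 1)
    (G : Type u) [Group G] (a g : G) (ha : RE4 a) (hm : a ^ m = 1)
    (hH : Group.IsNilpotent (closure ({a, cj a g} : Set G))) :
    Group.IsNilpotent (closure ({a, g} : Set G)) := by
  set S := closure ({a, g} : Set G) with hS
  let a' : S := ⟨a, Subgroup.subset_closure (by simp)⟩
  let g' : S := ⟨g, Subgroup.subset_closure (by simp)⟩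
  have ha' : RE4 a' := RE4.sub ha
  have hg' : closure ({a', g'} : Set S) = ⊤ := closure_pair_top a g
  have hH' : Group.IsNilpotent (closure ({a', cj a' g'} : Set S)) := by
    apply C.nil_of_map S.subtype_injective
    rw [MonoidHom.map_closure, Set.image_pair, map_cj]
    exact hH
  refine nil_of_cless ha' hg' fun Q _ φ hφ hc => core Q _ _ (ha'.map hφ) ?_ ?_ ?_ hc
  · rw [← map_pow, show a' ^ m = 1 from Subtype.ext hm, map_one]
  · rw [← Set.image_pair, ← MonoidHom.map_closure, hg', Subgroup.map_top_of_surjective _ hφ]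
  · rw [← map_cj, ← Set.image_pair, ← MonoidHom.map_closure]
    exact C.nil_map φ hH'

theorem nil_of_class_two {x y : G} (h1 : Commute (cm x y) x) (h2 : Commute (cm x y) y) :
    Group.IsNilpotent (closure ({x, y} : Set G)) := by
  set S := closure ({x, y} : Set G) with hS
  let x' : S := ⟨x, Subgroup.subset_closure (by simp)⟩
  let y' : S := ⟨y, Subgroup.subset_closure (by simp)⟩
  have hg : closure ({x', y'} : Set S) = ⊤ := closure_pair_top x y
  have hc : C.cm x' y' ∈ Subgroup.upperCentralSeries S 1 := by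
    apply C.mem_ucs_gen hg
    rw [Subgroup.upperCentralSeries_zero]
    rintro t (rfl | rfl)
    · exact Subtype.ext (cm_eq_one.2 h1)
    · exact Subtype.ext (cm_eq_one.2 h2)
  refine ⟨2, ?_⟩
  rw [eq_top_iff, ← hg, Subgroup.closure_le]
  rintro t (rfl | rfl)
  · apply C.mem_ucs_gen hg
    rintro t (rfl | rfl)
    · rw [C.cm_self]; exact one_mem _
    · exact hc
  · apply C.mem_ucs_gen hg
    rintro t (rfl | rfl)
    · rw [← C.cm_inv]; exact inv_mem hc
    · rw [C.cm_self]; exact one_mem _

/-- the three uses of Lemma Z. -/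
theorem a0_of_Z {a : G} (ha : RE4 a)
    (Z : ∀ g : G, Group.IsNilpotent (closure ({a, cj a g} : Set G)) →
      Group.IsNilpotent (closure ({a, g} : Set G))) (g : G) :
    Group.IsNilpotent (closure ({a, g} : Set G)) := by
  obtain ⟨c1, c2⟩ := class_two (ha.cj g) a
  exact Z _ (Z _ (Z _ (nil_of_class_two c1 c2)))

end Pool.Agent.P.MP_9682d1_al.A
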