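import Mathlib
import Pool.Agent.P.MP_9682d1_al.A.Red
import Pool.Agent.P.MP_9682d1_al.A.Iso

set_option autoImplicit false

namespace Pool.Agent.P.MP_9682d1_al.A

open Subgroup

universe u

variable {G : Type*} [Group G]

/-- fixed point step: if `y` and all its conjugates under powers of `a` lie in a subgroup `S` in
which only `1` commutes with `a`, then `y = 1` (Heineken). -/
theorem eq_one_of_orbit {a : G} (ha : RE4 a) (S : Subgroup G)
    (hS : ∀ y ∈ S, Commute y a → y = 1) {r : G} (hr : ∀ k : ℤ, cj r (a ^ k) ∈ S) : r = 1 := by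
  have step : ∀ y : G, (∀ k : ℤ, cj y (a ^ k) ∈ S) → ∀ k : ℤ, cj (cm y a⁻¹) (a ^ k) ∈ S := by
    intro y hy k
    have : cj (cm y a⁻¹) (a ^ k) = (cj y (a ^ k))⁻¹ * cj y (a ^ (k - 1)) := by
      unfold cj cm; group
    rw [this]; exact S.mul_mem (S.inv_mem (hy k)) (hy _)
  have fin : ∀ y : G, (∀ k : ℤ, cj y (a ^ k) ∈ S) → cm y a⁻¹ = 1 → y = 1 := by
    intro y hy h
    refine hS y ?_ (Commute.inv_right_iff.1 (cm_eq_one.1 h))
    simpa [cj_one] using hy 0
  have s1 := step _ hr
  have s2 := step _ s1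
  have s3 := step _ s2
  have s4 := step _ s3
  exact fin _ hr (fin _ s1 (fin _ s2 (fin _ s3 (fin _ s4 (heineken ha r)))))

/-- centreless core: if `r(w)` commutes with all `b_k = a_1^(a^k)` then `w = 1`. -/
theorem core_of_comm {a g : G} (ha : RE4 a) (hc : Cless a g) {w : G} (c0 : Commute w a)
    (c1 : Commute w (cj a g))
    (hb : ∀ k : ℤ, Commute (cm (cj (cj (cj a g) g) g) (cj w g)) (cj (cj a g) (a ^ k))) : w = 1 := by
  have hT := idT ha g w _ _ _ rfl rfl rfl c0 c1
  set a1 := cj a g with h1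
  set a2 := cj a1 g with h2
  set a3 := cj a2 g with h3
  set r := cm a3 (cj w g) with hr
  have hT' : ∀ j : ℤ, cj r (a ^ j * a2 ^ j) = r := by
    intro j
    apply cj_eq_self.2
    have e : a ^ j * a2 ^ j = (cj a1 (a ^ (-j)) ^ j)⁻¹ * (a ^ j * a1 ^ j * a2 ^ j) := by
      rw [← cj_zpow a1 (a ^ (-j)) j]; generalize a2 = x; generalize a1 = y; unfold cj; group
    rw [e]; exact ((hb (-j)).zpow_right j).inv_right.mul_right (hT j)
  have hr1 : r = 1 := by
    refine eq_one_of_orbit ha (centralizer {a1, a * a2}) (fun y hy hya => ?_) fun k => ?_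
    · rw [Subgroup.mem_centralizer_iff] at hy
      have k1 : Commute a1 y := hy a1 (by simp)
      have k2 : Commute (a * a2) y := hy (a * a2) (by simp)
      refine hc y hya k1.symm ?_
      have : a2 = a⁻¹ * (a * a2) := by group
      rw [← h1, ← h2, this]
      exact hya.inv_right.mul_right k2.symm
    · rw [Subgroup.mem_centralizer_iff]
      rintro t (rfl | rfl)
      · have := commute_cj (hb (-k)) (a ^ k)
        have e : cj (cj a1 (a ^ (-k))) (a ^ k) = a1 := by unfold cj; group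
        rw [e] at this
        exact this.symm.eq
      · have e1 : cj r (a ^ k) = cj r (a2 ^ (-k)) := by
          conv_rhs => rw [← hT' k]
          unfold cj; group
        have e2 : cj (cj r (a ^ k)) (a * a2) = cj r (a2 ^ (-k)) := by
          conv_rhs => rw [← hT' (k + 1)]
          unfold cj; group
        exact (cj_eq_self.1 (e2.trans e1.symm)).symm.eq
  refine hc w c0 c1 ?_
  apply commute_of_cj g
  exact (cm_eq_one.1 hr1).symm

/-- if `⟨a_0,a_1⟩` is nilpotent, `r(w)` commutes with a 3-power of every `b_k`. -/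
theorem comm_pow {a g : G} (ha : RE4 a) (hH : Group.IsNilpotent (closure ({a, cj a g} : Set G)))
    {w : G} (c0 : Commute w a) (c1 : Commute w (cj a g)) : ∃ s : ℕ, ∀ k : ℤ,
      Commute (cm (cj (cj (cj a g) g) g) (cj w g)) (cj (cj a g) (a ^ k) ^ (3 ^ s)) := by
  have hC := idC ha g w _ _ _ rfl rfl rfl c0 c1
  set r := cm (cj (cj (cj a g) g) g) (cj w g) with hr
  let M : Subgroup G :=
    { carrier := {h | ∀ k : ℤ, Commute r (cj h (a ^ k))}
      one_mem' := fun k => by simp [cj]
      mul_mem' := fun hx hy k => by rw [cj_mul]; exact (hx k).mul_right (hy k)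
      inv_mem' := fun hx k => by rw [cj_inv]; exact (hx k).inv_right }
  obtain ⟨s, hs⟩ := pow_mem_of_nil hH M
    (fun m hm j k => by rw [cj_cj, ← zpow_add]; exact hm _) hC
  exact ⟨s, fun k => by rw [← cj_pow]; exact hs k⟩

theorem eq_one_of_centre {a b : G} (hH : Group.IsNilpotent (closure ({a, b} : Set G)))
    (h : ∀ w ∈ closure ({a, b} : Set G), Commute w a → Commute w b → w = 1) : a = 1 := by
  by_contra hne
  set S := closure ({a, b} : Set G) with hS
  have ha : a ∈ S := Subgroup.subset_closure (by simp)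
  have hb : b ∈ S := Subgroup.subset_closure (by simp)
  have : Nontrivial S := ⟨⟨⟨a, ha⟩, 1, fun e => hne (congrArg Subtype.val e)⟩⟩
  apply Group.IsNilpotent.center_ne_bot S
  rw [eq_bot_iff]
  intro z hz
  rw [mem_center_iff] at hz
  rw [Subgroup.mem_bot]
  apply Subtype.ext
  exact h z z.2 (congrArg Subtype.val (hz ⟨a, ha⟩)).symm (congrArg Subtype.val (hz ⟨b, hb⟩)).symm

/-- core of Lemma Z for finite order prime to 3. -/
theorem core_coprime {m : ℕ} (hm : Nat.Coprime 3 m) {a g : G} (ha : RE4 a) (ham : a ^ m = 1)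
    (hH : Group.IsNilpotent (closure ({a, cj a g} : Set G))) (hc : Cless a g) : a = 1 := by
  refine eq_one_of_centre hH fun w _ c0 c1 => core_of_comm ha hc c0 c1 fun k => ?_
  obtain ⟨s, hs⟩ := comm_pow ha hH c0 c1
  set b := cj (cj a g) (a ^ k) with hb
  have hbm : b ^ m = 1 := by rw [hb, ← cj_pow, ← cj_pow, ham]; simp [cj]
  have hco : Nat.Coprime (3 ^ s) (orderOf b) :=
    Nat.Coprime.pow_left s (Nat.Coprime.coprime_dvd_right (orderOf_dvd_of_pow_eq_one hbm) hm)
  obtain ⟨t, ht⟩ := exists_pow_eq_self_of_coprime hco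
  rw [← ht]
  exact (hs k).pow_right t

/-- (A0) for right 4-Engel elements of finite order prime to 3. -/
theorem a0_coprime {m : ℕ} (hm : Nat.Coprime 3 m) {G : Type u} [Group G] {a : G} (ha : RE4 a)
    (ham : a ^ m = 1) (g : G) : Group.IsNilpotent (closure ({a, g} : Set G)) :=
  a0_of_Z ha (fun g hH => lemZ_gen m
    (fun _ _ _ _ ha ham _ hH hc => core_coprime hm ha ham hH hc) G a g ha ham hH) g

/-- (A0) for elements of 3-power order. -/
def A03 : Prop := ∀ (G : Type u) [Group G] (a g : G) (e : ℕ), RE4 a → a ^ (3 ^ e) = 1 →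
  Group.IsNilpotent (closure ({a, g} : Set G))

theorem commute_pow_sub (q : ℕ) {G : Type u} [Group G] {x y : G} {e : ℕ}
    (h : Group.IsNilpotent (closure ({x, y} : Set G))) (he : x ^ (q ^ e) = 1) :
    ∃ s : ℕ, Commute x (y ^ (q ^ s)) := by
  obtain ⟨s, hs⟩ := commute_pow_of_nil q (closure ({x, y} : Set G))
    ⟨x, Subgroup.subset_closure (by simp)⟩ ⟨y, Subgroup.subset_closure (by simp)⟩ e
    (Subtype.ext he)
  exact ⟨s, congrArg Subtype.val hs⟩

theorem lift_pow (h3 : A03.{u}) {G : Type u} [Group G] {y v : G} (hy : RE4 y) {s : ℕ}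
    (hv : Commute v (y ^ (3 ^ s))) : ∃ t : ℕ, Commute y (v ^ (3 ^ t)) := by
  let C : Subgroup G := centralizer {y ^ (3 ^ s)}
  have hyC : y ∈ C := Subgroup.mem_centralizer_singleton_iff.2 ((Commute.refl y).pow_right _).eq
  have hvC : v ∈ C := Subgroup.mem_centralizer_singleton_iff.2 hv.eq
  let y' : C := ⟨y, hyC⟩
  let v' : C := ⟨v, hvC⟩
  have hy' : RE4 y' := RE4.sub hy
  have hz : y' ^ (3 ^ s) ∈ center C := by
    rw [mem_center_iff]
    intro x
    exact Subtype.ext (Subgroup.mem_centralizer_singleton_iff.1 x.2)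
  have hs := QuotientGroup.mk'_surjective (center C)
  have he : QuotientGroup.mk' (center C) y' ^ (3 ^ s) = 1 := by
    rw [← map_pow]; exact (QuotientGroup.eq_one_iff _).2 hz
  obtain ⟨t, ht⟩ := commute_pow_sub 3 (h3 _ _ (QuotientGroup.mk' (center C) v') s (hy'.map hs) he) he
  rw [← map_pow, ← cm_eq_one, ← map_cm] at ht
  have hc : cm y' (v' ^ 3 ^ t) ∈ center C := (QuotientGroup.eq_one_iff _).1 ht
  have : Commute y' (v' ^ 3 ^ (t + s)) := by
    rw [← cm_eq_one, pow_add, pow_mul, cm_pow_right (mem_center_iff.1 hc _).symm,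
      ← cm_pow_left (mem_center_iff.1 hc _).symm, cm_eq_one]
    exact (mem_center_iff.1 hz _).symm
  exact ⟨t + s, congrArg Subtype.val this⟩

/-- reduction to 3-power order (centreless core). -/
theorem core_of_a03 (h3 : A03.{u}) {G : Type u} [Group G] {a g : G} (ha : RE4 a)
    (hH : Group.IsNilpotent (closure ({a, cj a g} : Set G))) (hc : Cless a g) : a = 1 := by
  have tor : ∀ w : G, Commute w a → Commute w (cj a g) → ∃ t : ℕ, w ^ (3 ^ t) = 1 := by
    intro w c0 c1
    obtain ⟨s, hs⟩ := comm_pow ha hH c0 c1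
    have hM := fun (w : G) c0 c1 => (idM ha g w _ _ _ _ rfl rfl rfl rfl c0 c1).1
    set am := cj a g⁻¹ with hm
    set a1 := cj a g with h1
    have hwb : ∀ k : ℤ, Commute w (cj a1 (a ^ k)) := by
      intro k
      have := commute_cj c1 (a ^ k)
      rwa [cj_eq_self.2 (c0.zpow_right k)] at this
    have e : ∀ w : G, cm am⁻¹ w⁻¹ = cj w am⁻¹ * w⁻¹ := by intro w; unfold cm cj; group
    have sh : ∀ k : ℤ, cj (cj a1 (a ^ k)) a = cj a1 (a ^ (k + 1)) := by
      intro k; unfold cj; group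
    have hv : ∀ k : ℤ, ∃ t : ℕ, Commute (cj a1 (a ^ k)) (cj w am⁻¹ ^ (3 ^ t)) := by
      intro k
      refine lift_pow h3 ((ha.cj g).cj _) (s := s) ?_
      have := hs (k + 1)
      rw [hM w c0 c1, ← sh, ← cj_pow, e] at this
      have h' := (commute_of_cj a this).mul_left ((hwb k).pow_right (3 ^ s))
      simpa using h'
    obtain ⟨t0, k0⟩ := hv 0
    obtain ⟨t1, k1⟩ := hv (0 + 1)
    obtain ⟨t2, k2⟩ := hv (0 + 1 + 1)
    have up : ∀ (b : G) (t t' : ℕ), Commute b (cj w am⁻¹ ^ (3 ^ t)) → t ≤ t' →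
        Commute (cj w am⁻¹ ^ (3 ^ t')) b := by
      intro b t t' h hle
      obtain ⟨d, rfl⟩ := Nat.exists_eq_add_of_le hle
      rw [pow_add, pow_mul]; exact (h.pow_right _).symm
    have all := w3 (ha.cj g) a (cj w am⁻¹ ^ (3 ^ (t0 + t1 + t2))) 0
      (up _ _ _ k0 (by omega)) (up _ _ _ k1 (by omega)) (up _ _ _ k2 (by omega))
    refine ⟨t0 + t1 + t2, core_of_comm ha hc (c0.pow_left _) (c1.pow_left _) fun k => ?_⟩
    have e2 : cj a1 (a ^ k) = cj (cj a1 (a ^ (k - 1))) a := by unfold cj; group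
    rw [hM _ (c0.pow_left _) (c1.pow_left _), e, e2]
    apply commute_cj
    rw [cj_pow]
    exact (all (k - 1)).mul_left ((hwb _).pow_left _).inv_left
  obtain ⟨e, he⟩ := torsion_of_centre 3 (closure ({a, cj a g} : Set G)) _ _
    (closure_pair_top a (cj a g)) (fun z c0 c1 => by
      obtain ⟨t, ht⟩ := tor z (congrArg Subtype.val c0) (congrArg Subtype.val c1)
      exact ⟨t, Subtype.ext ht⟩) ⟨a, Subgroup.subset_closure (by simp)⟩
  have he' : a ^ (3 ^ e) = 1 := congrArg Subtype.val he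
  refine eq_one_of_centre (h3 G a g e ha he') fun w _ c0 cg => ?_
  have jw : cj w g = w := cj_eq_self.2 cg
  have c1 : Commute w (cj a g) := by rw [← jw]; exact commute_cj c0 g
  exact hc w c0 c1 (by rw [← jw]; exact commute_cj c1 g)

/-- (A0) in general follows from the case of 3-power order. -/
theorem a0_of_a03 (h3 : A03.{u}) {G : Type u} [Group G] {a : G} (ha : RE4 a) (g : G) :
    Group.IsNilpotent (closure ({a, g} : Set G)) :=
  a0_of_Z ha (fun g hH => lemZ_gen 0
    (fun _ _ _ _ ha _ _ hH hc => core_of_a03 h3 ha hH hc) G a g ha (pow_zero a) hH) g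

/-- the remaining core: 3-power order, `⟨a_0,a_1⟩` nilpotent, centreless. -/
def Core3 : Prop := ∀ (Q : Type u) [Group Q] (a g : Q) (e : ℕ), RE4 a → a ^ (3 ^ e) = 1 →
  closure ({a, g} : Set Q) = ⊤ → Group.IsNilpotent (closure ({a, cj a g} : Set Q)) →
  Cless a g → a = 1

theorem a03_of_core3 (h : Core3.{u}) : A03.{u} := fun G _ a g e ha he =>
  a0_of_Z ha (fun g hH => lemZ_gen (3 ^ e) (fun Q _ a g => h Q a g e) G a g ha he hH) g

theorem a0_of_core3 (h : Core3.{u}) {G : Type u} [Group G] {a : G} (ha : RE4 a) (g : G) :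
    Group.IsNilpotent (closure ({a, g} : Set G)) :=
  a0_of_a03 (a03_of_core3 h) ha g

end Pool.Agent.P.MP_9682d1_al.A
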