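import Mathlib
import Pool.Agent.P.MP_9682d1_al.A.LemZ
import Pool.Agent.P.MP_9682d1_al.B3.Three
import Pool.Agent.P.MP_9682d1_al.KB.Q13
import Pool.Agent.P.MP_9682d1_al.KB.Q29

set_option autoImplicit false

namespace Pool.Agent.P.MP_9682d1_al.A

open Subgroup

universe u

variable {G : Type*} [Group G]

theorem cj_mem_cls {a u : G} (hu : u ∈ C.cls a) (x : G) : cj u x ∈ C.cls a :=
  C.cj_cls a u hu x

theorem RE4.cls {a u : G} (ha : RE4 a) (hu : u ∈ C.cls a) : RE4 u :=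
  (re4_iff_C u).2 (C.RE.cls ((re4_iff_C a).1 ha) hu)

theorem p2_three {v q : G} (hv : v ^ 3 = 1) (hq : q ^ 3 = 1) (h : (v * q) ^ 3 = 1)
    (c : Commute v (cj v q)) : C.P2 v q := by
  set w := cj v q with hw
  have hw3 : w ^ 3 = 1 := by rw [hw, ← cj_pow, hv]; simp [cj]
  have e : cj w q = v⁻¹ * w⁻¹ := by
    have : cj w q = (q ^ 3)⁻¹ * (v⁻¹ * (v * q) ^ 3 * w⁻¹) := by
      rw [hw]; simp only [cj, pow_succ, pow_zero]; group
    rw [this, hq, h]; simp
  have e0 : C.cm v q = v⁻¹ * w := rfl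
  refine ⟨?_, ?_⟩
  · rw [e0]; exact (Commute.refl v).inv_left.mul_left c.symm
  · apply cj_eq_self.1
    rw [e0, cj_mul, cj_inv, ← hw, e, ← mul_assoc, c.symm.inv_inv.eq]
    calc v⁻¹ * w⁻¹ * w⁻¹ = v⁻¹ * w * (w ^ 3)⁻¹ := by simp only [pow_succ, pow_zero]; group
      _ = _ := by rw [hw3]; simp

theorem lift_three {G : Type u} [Group G] {a : G} (ha : RE4 a) (h3 : a ^ 3 = 1)
    (H : ∀ (Q : Type u) [Group Q] (φ : G →* Q), Function.Surjective φ →
      (∀ u ∈ C.cls a, ∀ v ∈ C.cls a, C.P2 u v → Commute (φ u) (φ v)) → φ a ∈ C.HP Q) :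
    a ∈ C.HP G :=
  C.RE.hp_of_quot ((re4_iff_C a).1 ha) fun Q _ φ hφ hk => H Q φ hφ fun u hu v hv p => by
    rw [← C.cm_eq_one, ← C.map_cm]
    exact hk _ (B3.U3 G a ((re4_iff_C a).1 ha) h3 u hu v hv p)

theorem p2_cls {a u v : G} (ha : RE4 a) (h3 : a ^ 3 = 1) (hu : u ∈ C.cls a) (hv : v ∈ C.cls a)
    (c : Commute v (cj v u)) : C.P2 v u := by
  refine p2_three (B3.cls_pow h3 hv) (B3.cls_pow h3 hu) ?_ c
  simpa using B3.prod_cube ((re4_iff_C a).1 ha) h3 hv hu 1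

theorem three_1 {G : Type u} [Group G] {a : G} (ha : RE4 a) (h3 : a ^ 3 = 1)
    (h : ∀ u ∈ C.cls a, ∀ v ∈ C.cls a, Commute v (cj v u)) : a ∈ C.HP G := by
  refine lift_three ha h3 fun Q _ φ hφ k => ?_
  rw [C.mem_HP_iff, ← C.image_cls hφ]
  refine C.ln_of_comm ?_
  rintro _ ⟨u, hu, rfl⟩ _ ⟨v, hv, rfl⟩
  exact k u hu v hv (p2_cls ha h3 hv hu (h v hv u hu))

theorem three_2 {G : Type u} [Group G] {a : G} (ha : RE4 a) (h3 : a ^ 3 = 1)
    (h : ∀ u ∈ C.cls a, ∀ v ∈ C.cls a, Commute v (cj v (cj v u))) : a ∈ C.HP G := by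
  refine lift_three ha h3 fun Q _ φ hφ k =>
    three_1 (ha.map hφ) (by rw [← map_pow, h3, map_one]) ?_
  rw [← C.image_cls hφ]
  rintro _ ⟨u, hu, rfl⟩ _ ⟨v, hv, rfl⟩
  rw [← map_cj]
  exact k v hv _ (cj_mem_cls hv u) (p2_cls ha h3 (cj_mem_cls hv u) hv (h u hu v hv))

/-- a right 4-Engel element of order 3 lies in the Hirsch-Plotkin radical. -/
theorem hp_three {G : Type u} [Group G] {a : G} (ha : RE4 a) (h3 : a ^ 3 = 1) : a ∈ C.HP G := by
  refine lift_three ha h3 fun Q _ φ hφ k =>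
    three_2 (ha.map hφ) (by rw [← map_pow, h3, map_one]) ?_
  rw [← C.image_cls hφ]
  rintro _ ⟨u, hu, rfl⟩ _ ⟨v, hv, rfl⟩
  rw [← map_cj, ← map_cj]
  exact k v hv _ (cj_mem_cls hv _) (class_two (ha.cls hu) v)

section nine

variable {a : G} {m : ℕ} (ha : RE4 a) (hm : a ^ (3 * m * 3) = 1)
include ha hm

theorem nine_1 {u v : G} (hu : u ∈ C.cls a) (hv : v ∈ C.cls a) :
    Commute (v ^ (3 * m)) (cj (v ^ (3 * m)) (cj v u)) := by
  obtain ⟨c1, c2⟩ := class_two (ha.cls hu) v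
  have e : cm v (cj v (cj v u)) ^ (3 * m * 3) = 1 := by
    rw [← cm_pow_left c1, B3.cls_pow hm hv]; simp [cm]
  rw [← cm_eq_one, cj_pow, cm_pow_right, cm_pow_left c1, ← pow_mul,
    show 3 * m * (3 * m) = 3 * m * 3 * m by ring, pow_mul, e, one_pow]
  rw [cm_pow_left c1]
  exact c2.pow_left _

theorem nine_2 {u v : G} (hu : u ∈ C.cls a) (hv : v ∈ C.cls a) :
    C.P2 (v ^ (3 * m)) (cj (v ^ (3 * m)) u) := by
  have c := nine_1 ha hm hu hv
  have h3 : (v ^ (3 * m)) ^ 3 = 1 := by rw [← pow_mul]; exact B3.cls_pow hm hv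
  rw [cj_pow v u]
  set q := cj v u with hq
  set b := v ^ (3 * m) with hb
  have k : cm (cm q b) b = 1 := by
    have e : cm q b = (cj b q)⁻¹ * b := by unfold cm cj; group
    rw [cm_eq_one, e]
    exact c.symm.inv_left.mul_left (Commute.refl b)
  obtain ⟨t1, t2⟩ := KB.Q13.main q b k h3 (ha.cls (cj_mem_cls hv u))
  have s1 : Commute (cm b (q ^ 3)) b := cm_eq_one.1 t1
  have s2 : Commute (cm b (q ^ 3)) q := cm_eq_one.1 t2
  have e : C.cm b (q ^ (3 * m)) = cm b (q ^ 3) ^ m := by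
    rw [← cm_eq_C, pow_mul, cm_pow_right (s2.pow_right 3)]
  rw [C.P2, e]
  exact ⟨s1.pow_left m, (s2.pow_left m).pow_right _⟩

theorem nine_3 {u v : G} (hu : u ∈ C.cls a) (hv : v ∈ C.cls a) :
    cm (cm (v ^ (3 * m)) (u ^ (3 * m))) (u ^ (3 * m)) = 1 := by
  have h3 : (v ^ (3 * m)) ^ 3 = 1 := by rw [← pow_mul]; exact B3.cls_pow hm hv
  have p := fun x : G => (nine_2 ha hm (cj_mem_cls hu x) hv).symm
  have t := KB.Q29.main u (v ^ (3 * m)) h3 (ha.cls hu) (fun x => C.cm_eq_one.2 (p x).2)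
    (fun x => C.cm_eq_one.2 (p x).1)
  have s : Commute (cm (v ^ (3 * m)) (u ^ 3)) (u ^ 3) := cm_eq_one.1 t
  rw [pow_mul u, cm_pow_right s, cm_eq_one]
  exact (s.pow_left m).pow_right m

theorem hp_nine : a ^ (3 * m) ∈ C.HP G := by
  have g : C.Good {y : G | ∃ v ∈ C.cls a, y = v ^ (3 * m)} := by
    refine B3.good_of_three ?_ ?_ ?_
    · rintro _ ⟨v, hv, rfl⟩ x
      exact ⟨_, cj_mem_cls hv x, cj_pow v x _⟩
    · rintro _ ⟨v, hv, rfl⟩ _ ⟨u, hu, rfl⟩
      exact nine_3 ha hm hu hv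
    · rintro _ ⟨v, hv, rfl⟩
      rw [← pow_mul]; exact B3.cls_pow hm hv
  exact g.sub_HP ⟨a, C.self_mem_cls a, rfl⟩

end nine

/-- a right 4-Engel element of 3-power order lies in the Hirsch-Plotkin radical. -/
theorem hp_three_pow (e : ℕ) : ∀ (G : Type u) [Group G] (a : G), RE4 a → a ^ (3 ^ e) = 1 →
    a ∈ C.HP G := by
  induction e with
  | zero =>
    intro G _ a _ h
    rw [pow_zero, pow_one] at h
    rw [h]; exact one_mem _
  | succ e ih =>
    intro G _ a ha h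
    have k : a ^ (3 ^ e) ∈ C.HP G := by
      cases e with
      | zero => simpa using hp_three ha (by simpa using h)
      | succ e =>
        rw [pow_succ' 3 e]
        exact hp_nine ha (by rw [← pow_succ' 3 e, ← pow_succ]; exact h)
    exact C.RE.hp_of_quot ((re4_iff_C a).1 ha) fun Q _ φ hφ hk =>
      ih Q _ (ha.map hφ) (by rw [← map_pow]; exact hk _ k)

theorem eq_one_of_hp {a g : G} (h : a ∈ C.HP G) (hc : Cless a g) : a = 1 := by
  by_contra hne
  have hH := C.mem_HP_iff.1 h {a, cj a g, cj (cj a g) g} (Set.toFinite _) (by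
    have h0 := C.self_mem_cls a
    rintro t (rfl | rfl | rfl)
    · exact h0
    · exact cj_mem_cls h0 g
    · exact cj_mem_cls (cj_mem_cls h0 g) g)
  set S := closure ({a, cj a g, cj (cj a g) g} : Set G) with hS
  have h0 : a ∈ S := Subgroup.subset_closure (by simp)
  have h1 : cj a g ∈ S := Subgroup.subset_closure (by simp)
  have h2 : cj (cj a g) g ∈ S := Subgroup.subset_closure (by simp)
  have : Nontrivial S := ⟨⟨⟨a, h0⟩, 1, fun e => hne (congrArg Subtype.val e)⟩⟩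
  apply Group.IsNilpotent.center_ne_bot S
  rw [eq_bot_iff]
  intro z hz
  rw [mem_center_iff] at hz
  rw [Subgroup.mem_bot]
  apply Subtype.ext
  exact hc z (congrArg Subtype.val (hz ⟨_, h0⟩)).symm (congrArg Subtype.val (hz ⟨_, h1⟩)).symm
    (congrArg Subtype.val (hz ⟨_, h2⟩)).symm

theorem core3 : Core3.{u} := fun Q _ a _ e ha he _ _ hc =>
  eq_one_of_hp (hp_three_pow e Q a ha he) hc

/-- (A0): a right 4-Engel element and any element generate a nilpotent group. -/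
theorem a0 {G : Type u} [Group G] {a : G} (ha : RE4 a) (g : G) :
    Group.IsNilpotent (closure ({a, g} : Set G)) := a0_of_core3 core3 ha g

/-- (A0) in the form used by `C.descent`. -/
theorem A0 (G : Type u) [Group G] (a g : G) (ha : C.RE 4 a) :
    Group.IsNilpotent (closure ({a, g} : Set G)) := a0 ((re4_iff_C a).2 ha) g

end Pool.Agent.P.MP_9682d1_al.A
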